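import Pool.Agent.Helper59.BraidDefs
import Pool.Agent.Helper59.BraidCount

set_option autoImplicit false

open Pool.Agent.Helper59.Braid

/-- The number of special braids in `B_n` is `1, 2, 4, 10` for `n = 1, 2, 3, 4`, and it is
infinite for every `n ≥ 5`. -/
theorem Pool.Agent.Results.MP_c15459_al.SpecialCount.result :
    (E 1).ncard = 1 ∧ (E 2).ncard = 2 ∧ (E 3).ncard = 4 ∧ (E 4).ncard = 10 ∧
      ∀ n, 5 ≤ n → (E n).Infinite :=
  count_main
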